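import Pool.Agent.Run7.h834.Stat2
import Pool.Agent.Run7.h834.Regime2

/-!
# Poisson statistics of narrow random band matrices at every bulk energy
-/

set_option autoImplicit false

open MeasureTheory Filter Topology Run7.h834

/-- Entries with law of density `exp (-V)`, `V'` Lipschitz, mean `0`, variance `1`, all moments
finite; bandwidths `1 ≤ W N ≤ N ^ c` with `c < 2 / 9`.  The mean empirical spectral measure has a
continuous density `ρ N`, and at every energy `E` at which `ρ N E` stays away from `0` the point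
process `{N ρ N E (λ i - E)}` converges in distribution to the Poisson process of intensity one
(convergence of the Laplace functional on nonnegative continuous functions of compact support). -/
theorem Pool.Agent.Results.MP_b16c5e_pr.PoissonSmallBand.result {V : ℝ → ℝ} {K : ℝ}
    (hV : NiceV V K) {c : ℝ} (hc : c < 2 / 9) (W : ℕ → ℕ)
    (hW1 : ∀ᶠ N : ℕ in atTop, 1 ≤ W N)
    (hW : ∀ᶠ N : ℕ in atTop, (W N : ℝ) ≤ (N : ℝ) ^ c) :
    ∃ ρ : ℕ → ℝ → ℝ, (∀ N, IsMeanDens V (W N) N (ρ N)) ∧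
      ∀ E : ℝ, (∃ c₀ > 0, ∀ᶠ N : ℕ in atTop, c₀ ≤ ρ N E) →
        ∀ φ : ℝ → ℝ, Continuous φ → HasCompactSupport φ → (∀ u, 0 ≤ φ u) →
          Tendsto (fun N : ℕ => ∫ ω, Real.exp (-∑ i, φ (N * ρ N E * (bandEig (W N) N ω i - E)))
            ∂(Measure.infinitePi fun _ : ℕ × ℕ => lawV V)) atTop
            (𝓝 (Real.exp (-∫ u, (1 - Real.exp (-φ u))))) := by
  obtain ⟨hh, hR⟩ := reg_strong hV hc hW1 hW
  refine ⟨fun N => rhoN V (W N) N, fun N => isMeanDens_rhoN hV (W N) N, ?_⟩
  rintro E ⟨c₀, hc₀, hE⟩ φ h1 h2 h3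
  exact poisson_of_reg hV hR (fun N => isMeanDens_rhoN hV (W N) N) hc₀ hE h1 h2 h3
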